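import Pool.Agent.H76.CP.Form
import Pool.Agent.H76.CL.Abs
import Pool.Graph.R_pool_sql_team_seeded_2aa45f1a.Q234.NPU

/-!
# Szemerédi's theorem inside a set with a positive proportion of a sifted set
-/

set_option autoImplicit false

namespace Pool.Agent.H76.NA

open Finset Filter
open Pool.Agent.Y843.HS (Pr VV Pr_mem Pr_prime VV_split)
open Pool.Agent.Y843.HG (V1 V1_bounds V1_pos fac1)

/-- one factor -/
theorem fac_low {p D c : ℕ} (hp : p.Prime) (h : 2 * D ≤ p) (hc : c ≤ D) :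
    (1 - 1 / (p : ℝ)) ^ (2 * D) ≤ 1 - (c : ℝ) / p := by
  have hp0 : (0 : ℝ) < p := by exact_mod_cast hp.pos
  have hf := fac1 hp
  have h1 : 1 - 1 / (p : ℝ) ≤ Real.exp (-(1 / (p : ℝ))) := by
    have := Real.add_one_le_exp (-(1 / (p : ℝ)))
    linarith
  have h2 : (1 - 1 / (p : ℝ)) ^ (2 * D) ≤ Real.exp (-(2 * D / (p : ℝ))) := by
    calc (1 - 1 / (p : ℝ)) ^ (2 * D) ≤ Real.exp (-(1 / (p : ℝ))) ^ (2 * D) :=
          pow_le_pow_left₀ (by linarith [hf.1]) h1 _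
      _ = Real.exp (-(2 * D / (p : ℝ))) := by
          rw [← Real.exp_nat_mul]
          congr 1
          push_cast
          ring
  set t : ℝ := D / (p : ℝ) with ht
  have ht0 : 0 ≤ t := by positivity
  have ht1 : t ≤ 1 / 2 := by
    rw [ht, div_le_iff₀ hp0]
    have : (2 * D : ℝ) ≤ p := by exact_mod_cast h
    linarith
  have h3 : Real.exp (-(2 * D / (p : ℝ))) ≤ 1 - t := by
    have e : 2 * D / (p : ℝ) = 2 * t := by rw [ht]; ring
    rw [e, Real.exp_neg]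
    have h4 : 1 + 2 * t ≤ Real.exp (2 * t) := by
      have := Real.add_one_le_exp (2 * t)
      linarith
    calc (Real.exp (2 * t))⁻¹ ≤ (1 + 2 * t)⁻¹ := inv_anti₀ (by positivity) h4
      _ ≤ 1 - t := by
          rw [inv_le_iff_one_le_mul₀ (by positivity)]
          nlinarith
  have h5 : (c : ℝ) / p ≤ t := by
    rw [ht]
    exact div_le_div_of_nonneg_right (by exact_mod_cast hc) hp0.le
  linarith

/-- a lower bound for the product over the large primes -/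
theorem VV_low (D : ℕ) : ∃ c : ℝ, 0 < c ∧ ∀ a B : ℕ, 2 ≤ a → 2 * D ≤ a → a ≤ B → ∀ Z : ℕ → Finset ℕ,
    (∀ p : ℕ, p.Prime → (Z p).card ≤ D) → (c * (Real.log a / Real.log B)) ^ (2 * D) ≤ VV Z a B := by
  obtain ⟨c, C, hc, hC, hV⟩ := V1_bounds
  refine ⟨c / C, by positivity, ?_⟩
  intro a B ha haD haB Z hZ
  have hla : 0 < Real.log (a : ℝ) := Real.log_pos (by exact_mod_cast (by omega : 1 < a))
  have hlB : 0 < Real.log (B : ℝ) := Real.log_pos (by exact_mod_cast (by omega : 1 < B))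
  have h1 : (V1 B / V1 a) ^ (2 * D) ≤ VV Z a B := by
    have h2 : V1 B / V1 a = ∏ p ∈ Pr a B, (1 - 1 / (p : ℝ)) := by
      rw [← Pool.Agent.Q234.NPU.V1_split haB, mul_div_cancel_left₀ _ (V1_pos a).ne']
    rw [h2, ← prod_pow]
    unfold VV
    apply Finset.prod_le_prod
    · intro p hp
      have := (fac1 (Pr_prime hp)).1
      positivity
    · intro p hp
      have h3 := (Pr_mem.1 hp).1.1
      exact fac_low (Pr_prime hp) (by omega) (hZ p (Pr_prime hp))
  refine le_trans ?_ h1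
  apply pow_le_pow_left₀ (by positivity)
  have h2 := (hV B (by omega)).1
  have h3 := (hV a ha).2
  have h4 := V1_pos a
  rw [le_div_iff₀ h4]
  calc c / C * (Real.log a / Real.log B) * V1 a ≤ c / C * (Real.log a / Real.log B) * (C / Real.log a) := by
        apply mul_le_mul_of_nonneg_left h3 (by positivity)
    _ = c / Real.log B := by
        field_simp
    _ ≤ V1 B := h2

/-- a lower bound for the product over all the primes -/
theorem VV_all (D : ℕ) : ∃ c : ℝ, 0 < c ∧ ∀ B : ℕ, 2 * D + 2 ≤ B → ∀ Z : ℕ → Finset ℕ,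
    (∀ p : ℕ, p.Prime → (Z p).card ≤ D ∧ (Z p).card < p) → c / Real.log B ^ (2 * D) ≤ VV Z 0 B := by
  obtain ⟨c, hc, h⟩ := VV_low D
  set a : ℕ := 2 * D + 2 with ha
  have ha0 : (0 : ℝ) < a := by exact_mod_cast (by omega : 0 < a)
  have hla : 0 < Real.log (a : ℝ) := Real.log_pos (by exact_mod_cast (by omega : 1 < a))
  refine ⟨(∏ p ∈ Pr 0 a, (1 / (p : ℝ))) * (c * Real.log a) ^ (2 * D), ?_, ?_⟩
  · apply mul_pos
    · apply prod_pos
      intro p hp
      have : (0 : ℝ) < p := by exact_mod_cast (Pr_prime hp).pos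
      positivity
    · positivity
  intro B hB Z hZ
  have hlB : 0 < Real.log (B : ℝ) := Real.log_pos (by exact_mod_cast (by omega : 1 < B))
  rw [← VV_split Z (Nat.zero_le a) hB]
  have h1 : ∏ p ∈ Pr 0 a, (1 / (p : ℝ)) ≤ VV Z 0 a := by
    unfold VV
    apply Finset.prod_le_prod
    · intro p hp
      positivity
    · intro p hp
      have hp0 : (0 : ℝ) < p := by exact_mod_cast (Pr_prime hp).pos
      have h2 : ((Z p).card : ℝ) + 1 ≤ p := by exact_mod_cast (hZ p (Pr_prime hp)).2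
      rw [div_le_iff₀ hp0]
      have h3 : (1 - ((Z p).card : ℝ) / p) * p = p - (Z p).card := by field_simp
      rw [h3]
      linarith
  have h2 := h a B (by omega) (by omega) hB Z (fun p hp => (hZ p hp).1)
  calc (∏ p ∈ Pr 0 a, (1 / (p : ℝ))) * (c * Real.log a) ^ (2 * D) / Real.log B ^ (2 * D)
      = (∏ p ∈ Pr 0 a, (1 / (p : ℝ))) * (c * (Real.log a / Real.log B)) ^ (2 * D) := by
        rw [mul_div_assoc, ← div_pow, mul_div_assoc]
    _ ≤ VV Z 0 a * VV Z a B := by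
        apply mul_le_mul h1 h2 (by positivity)
        refine le_trans ?_ h1
        apply prod_nonneg
        intro p _
        positivity

/-- **Szemerédi's theorem inside sets with a positive proportion of a sifted set.** -/
theorem szem (D : ℕ) (ε c θ : ℝ) (hε : 0 < ε) (hc : 0 < c) (hθ : 0 < θ) (m : ℕ) (δ : ℝ) (hδ : 0 < δ) :
    ∃ C x₀ : ℕ, ∀ x : ℕ, x₀ ≤ x → ∀ y : ℕ, (y : ℝ) + θ * x ≤ x → ∀ Z : ℕ → Finset ℕ,
      (∀ p : ℕ, p.Prime → (Z p).card ≤ D ∧ (Z p).card < p ∧ ∀ c ∈ Z p, c < p) →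
      ∀ S₀ : Finset ℕ, S₀ ⊆ Ioc y x → (∀ n ∈ S₀, ∀ p : ℕ, p.Prime → (p : ℝ) < (x : ℝ) ^ ε → n % p ∉ Z p) →
      c * x * VV Z 0 x ≤ S₀.card + D → ∀ S : Finset ℕ, S ⊆ S₀ → δ * S₀.card ≤ S.card →
      ∃ a d : ℕ, 1 ≤ d ∧ (d : ℝ) ≤ Real.log x ^ C ∧ ∀ j < m, a + j * d ∈ S := by
  obtain ⟨κ, hκ0, hκε, hκ1⟩ : ∃ κ : ℝ, 0 < κ ∧ κ < ε ∧ κ ≤ 1 / 2 :=
    ⟨min (ε / 2) (1 / 2), lt_min (by positivity) (by norm_num), lt_of_le_of_lt (min_le_left _ _) (by linarith),
      min_le_right _ _⟩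
  obtain ⟨c₁, hc₁, hlow⟩ := VV_low D
  obtain ⟨c₂, hc₂, hall⟩ := VV_all D
  set e : ℝ := (c₁ * (κ / 4)) ^ (2 * D) with he
  have he0 : 0 < e := by positivity
  obtain ⟨C, X₀, hfin⟩ := Pool.Agent.Y843.HS.fin m D κ (δ * (c / 2 * e)) hκ0 (by positivity)
  -- the large x
  have ev1 : ∀ᶠ x : ℕ in atTop, (X₀ : ℝ) ≤ θ * x :=
    (Tendsto.const_mul_atTop hθ tendsto_natCast_atTop_atTop).eventually_ge_atTop _
  have ev2 : ∀ᶠ x : ℕ in atTop, (2 * D + 4 : ℝ) ≤ (θ * x) ^ κ :=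
    (Tendsto.comp (tendsto_rpow_atTop hκ0) (Tendsto.const_mul_atTop hθ tendsto_natCast_atTop_atTop)).eventually_ge_atTop _
  have ev3 : ∀ᶠ x : ℕ in atTop, (1 / θ : ℝ) ≤ (x : ℝ) ^ (1 / 2 : ℝ) :=
    (Tendsto.comp (tendsto_rpow_atTop (by norm_num)) tendsto_natCast_atTop_atTop).eventually_ge_atTop _
  have ev4 : ∀ᶠ x : ℕ in atTop, (D + 1 : ℝ) * Real.log x ^ (2 * D) ≤ c / 2 * c₂ * x := by
    have h1 : Tendsto (fun x : ℝ => Real.log x ^ (2 * D) / x) atTop (nhds 0) := by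
      have := Real.tendsto_pow_log_div_mul_add_atTop 1 0 (2 * D) one_ne_zero
      simpa using this
    have h2 : ∀ᶠ x : ℝ in atTop, Real.log x ^ (2 * D) / x < c / 2 * c₂ / (D + 1) :=
      h1.eventually (gt_mem_nhds (by positivity))
    have h3 := tendsto_natCast_atTop_atTop.eventually (h2.and (eventually_gt_atTop (0 : ℝ)))
    filter_upwards [h3] with x hx
    obtain ⟨hx1, hx2⟩ := hx
    rw [div_lt_div_iff₀ hx2 (by positivity)] at hx1
    linarith
  obtain ⟨x₁, hx₁⟩ := eventually_atTop.1 (ev1.and (ev2.and (ev3.and ev4)))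
  refine ⟨C, x₁ + 2 * D + 16, ?_⟩
  intro x hx y hy Z hZ S₀ hS₀ hav hcount S hS hSδ
  obtain ⟨g1, g2, g3, g4⟩ := hx₁ x (by omega)
  have hx16 : (16 : ℝ) ≤ x := by exact_mod_cast (by omega : 16 ≤ x)
  have hx0 : (0 : ℝ) < x := by linarith
  have hyx : y ≤ x := by
    have : (y : ℝ) ≤ x := by
      have : 0 ≤ θ * x := by positivity
      linarith
    exact_mod_cast this
  set X : ℕ := x - y with hX
  have hXr : (X : ℝ) = x - y := by rw [hX, Nat.cast_sub hyx]
  have hXθ : θ * x ≤ X := by rw [hXr]; linarith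
  have hXx : (X : ℝ) ≤ x := by
    rw [hXr]
    have : (0 : ℝ) ≤ y := Nat.cast_nonneg _
    linarith
  have hX0 : (0 : ℝ) < X := lt_of_lt_of_le (by positivity) hXθ
  have hXX₀ : X₀ ≤ X := by
    have : (X₀ : ℝ) ≤ X := g1.trans hXθ
    exact_mod_cast this
  have hXκ : (2 * D + 4 : ℝ) ≤ (X : ℝ) ^ κ := g2.trans (Real.rpow_le_rpow (by positivity) hXθ hκ0.le)
  set a : ℕ := ⌊(X : ℝ) ^ κ⌋₊ with ha
  have haD : 2 * D + 4 ≤ a := Nat.le_floor (by push_cast; exact hXκ)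
  have hX1 : (1 : ℝ) ≤ X := by
    by_contra hcon
    push Not at hcon
    have : (X : ℝ) ^ κ ≤ 1 := Real.rpow_le_one hX0.le hcon.le hκ0.le
    have hD0 : (0 : ℝ) ≤ D := Nat.cast_nonneg _
    linarith
  have hax : a ≤ x := by
    have h1 : (a : ℝ) ≤ (X : ℝ) ^ κ := Nat.floor_le (by positivity)
    have h2 : (X : ℝ) ^ κ ≤ (X : ℝ) ^ (1 : ℝ) := Real.rpow_le_rpow_of_exponent_le hX1 (by linarith)
    rw [Real.rpow_one] at h2
    have : (a : ℝ) ≤ x := by linarith
    exact_mod_cast this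
  have hlx : 0 < Real.log (x : ℝ) := Real.log_pos (by linarith)
  -- the size of log a
  have hloga : κ / 4 ≤ Real.log a / Real.log x := by
    have h1 : (X : ℝ) ^ κ / 2 ≤ a := by
      have h2 : (X : ℝ) ^ κ < a + 1 := Nat.lt_floor_add_one _
      have h3 : (4 : ℝ) ≤ (X : ℝ) ^ κ := by
        have hD0 : (0 : ℝ) ≤ D := Nat.cast_nonneg _
        linarith
      linarith
    have h2 : (x : ℝ) ^ (1 / 2 : ℝ) ≤ X := by
      calc (x : ℝ) ^ (1 / 2 : ℝ) = θ * ((1 / θ) * (x : ℝ) ^ (1 / 2 : ℝ)) := by field_simp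
        _ ≤ θ * ((x : ℝ) ^ (1 / 2 : ℝ) * (x : ℝ) ^ (1 / 2 : ℝ)) := by
            apply mul_le_mul_of_nonneg_left _ hθ.le
            exact mul_le_mul_of_nonneg_right g3 (by positivity)
        _ = θ * x := by rw [← Real.rpow_add hx0]; norm_num
        _ ≤ X := hXθ
    have h3 : (2 : ℝ) ≤ (X : ℝ) ^ (κ / 2) := by
      have h4 : (2 : ℝ) * 2 ≤ (X : ℝ) ^ (κ / 2) * (X : ℝ) ^ (κ / 2) := by
        rw [← Real.rpow_add hX0]
        have e1 : κ / 2 + κ / 2 = κ := by ring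
        rw [e1]
        have hD0 : (0 : ℝ) ≤ D := Nat.cast_nonneg _
        linarith
      have h5 : 0 ≤ (X : ℝ) ^ (κ / 2) := by positivity
      nlinarith
    have h4 : (X : ℝ) ^ (κ / 2) ≤ a := by
      have e1 : (X : ℝ) ^ κ = (X : ℝ) ^ (κ / 2) * (X : ℝ) ^ (κ / 2) := by
        rw [← Real.rpow_add hX0]
        congr 1
        ring
      have h5 : 0 ≤ (X : ℝ) ^ (κ / 2) := by positivity
      nlinarith
    have h5 : κ / 2 * Real.log X ≤ Real.log a := by
      rw [← Real.log_rpow hX0]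
      exact Real.log_le_log (by positivity) h4
    have h6 : 1 / 2 * Real.log x ≤ Real.log X := by
      rw [← Real.log_rpow hx0]
      exact Real.log_le_log (by positivity) h2
    rw [le_div_iff₀ hlx]
    nlinarith
  have hVV : e * VV Z 0 a ≤ VV Z 0 x := by
    rw [← VV_split Z (Nat.zero_le a) hax, mul_comm]
    have h0 : 0 ≤ VV Z 0 a := by
      apply prod_nonneg
      intro p hp
      have hp0 : (0 : ℝ) < p := by exact_mod_cast (Pr_prime hp).pos
      rw [sub_nonneg, div_le_one hp0]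
      exact_mod_cast (hZ p (Pr_prime hp)).2.1.le
    apply mul_le_mul_of_nonneg_left _ h0
    refine le_trans ?_ (hlow a x (by omega) (by omega) hax Z (fun p hp => (hZ p hp).1))
    rw [he]
    exact pow_le_pow_left₀ (by positivity) (mul_le_mul_of_nonneg_left hloga hc₁.le) _
  have hVx := hall x (by omega) Z (fun p hp => ⟨(hZ p hp).1, (hZ p hp).2.1⟩)
  have hbig : (D : ℝ) ≤ c / 2 * x * VV Z 0 x := by
    have h1 : (D : ℝ) ≤ c / 2 * x * (c₂ / Real.log x ^ (2 * D)) := by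
      have h2 : 0 < Real.log (x : ℝ) ^ (2 * D) := by positivity
      have e1 : c / 2 * x * (c₂ / Real.log x ^ (2 * D)) = c / 2 * c₂ * x / Real.log x ^ (2 * D) := by ring
      rw [e1, le_div_iff₀ h2]
      nlinarith
    exact h1.trans (mul_le_mul_of_nonneg_left hVx (by positivity))
  have hS₀c : c / 2 * x * VV Z 0 x ≤ S₀.card := by linarith
  have hSc : δ * (c / 2 * e) * X * VV Z 0 a ≤ S.card := by
    have h0 : 0 ≤ VV Z 0 a := by
      apply prod_nonneg
      intro p hp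
      have hp0 : (0 : ℝ) < p := by exact_mod_cast (Pr_prime hp).pos
      rw [sub_nonneg, div_le_one hp0]
      exact_mod_cast (hZ p (Pr_prime hp)).2.1.le
    calc δ * (c / 2 * e) * X * VV Z 0 a ≤ δ * (c / 2 * e) * x * VV Z 0 a := by
          apply mul_le_mul_of_nonneg_right _ h0
          exact mul_le_mul_of_nonneg_left hXx (by positivity)
      _ = δ * (c / 2 * x * (e * VV Z 0 a)) := by ring
      _ ≤ δ * (c / 2 * x * VV Z 0 x) := by
          apply mul_le_mul_of_nonneg_left _ hδ.le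
          exact mul_le_mul_of_nonneg_left hVV (by positivity)
      _ ≤ δ * S₀.card := mul_le_mul_of_nonneg_left hS₀c hδ.le
      _ ≤ S.card := hSδ
  obtain ⟨u, d, hd1, hd2, hd3⟩ := hfin X y hXX₀ Z (fun p hp _ => hZ p hp) S (by
      intro n hn
      have h1 := hS₀ (hS hn)
      rw [mem_Ioc] at h1 ⊢
      exact ⟨h1.1, by omega⟩) (by
      intro n hn p hp hpX
      apply hav n (hS hn) p hp
      refine lt_of_le_of_lt hpX ?_
      calc (X : ℝ) ^ κ ≤ (x : ℝ) ^ κ := Real.rpow_le_rpow hX0.le hXx hκ0.le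
        _ < (x : ℝ) ^ ε := Real.rpow_lt_rpow_of_exponent_lt (by linarith) hκε) hSc
  refine ⟨u, d, hd1, hd2.trans ?_, hd3⟩
  apply pow_le_pow_left₀ (Real.log_nonneg hX1)
  exact Real.log_le_log hX0 hXx

end Pool.Agent.H76.NA
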