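import Pool.Agent.H76.NA.Base

/-!
# Szemerédi's theorem inside the sets of Chen's theorem
-/

set_option autoImplicit false

namespace Pool.Agent.H76.NA

open Finset Filter Polynomial
open Pool.Agent.Y843.HS (Pr VV Pr_mem Pr_prime VV_split)
open Pool.Agent.H76.CL Pool.Agent.H76.CP

theorem Pr_eq (B : ℕ) : Pr 0 B = (Icc 1 B).filter Nat.Prime := by
  ext p
  rw [Pr_mem, mem_filter, mem_Icc]
  constructor
  · rintro ⟨⟨h1, h2⟩, h3⟩
    exact ⟨⟨h1, h2⟩, h3⟩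
  · rintro ⟨⟨h1, h2⟩, h3⟩
    exact ⟨⟨h1, h2⟩, h3⟩

theorem rts_card {G : Finset (ℤ × ℤ)} (hA : Adm G) {p : ℕ} (hp : p.Prime) :
    (rts G p).card ≤ G.card ∧ (rts G p).card < p := by
  classical
  obtain ⟨n, hn⟩ := hA p hp
  constructor
  · have h1 : rts G p = rts (G.filter (fun g => ¬ (p : ℤ) ∣ g.1)) p := by
      unfold rts
      apply filter_congr
      intro m _
      constructor
      · rintro ⟨g, hg, hd⟩
        refine ⟨g, mem_filter.2 ⟨hg, fun h1 => hn g hg ?_⟩, hd⟩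
        have h2 : (p : ℤ) ∣ val g m - val g n := by
          rw [val_sub]
          exact h1.mul_right _
        have := dvd_sub hd h2
        rwa [sub_sub_cancel] at this
      · rintro ⟨g, hg, hd⟩
        exact ⟨g, (mem_filter.1 hg).1, hd⟩
    rw [h1]
    refine (card_rts_le hp (fun g hg => (mem_filter.1 hg).2)).trans ?_
    exact card_le_card (filter_subset _ _)
  · have h1 : rts G p ⊂ range p := by
      rw [ssubset_iff_subset_ne]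
      refine ⟨filter_subset _ _, fun he => ?_⟩
      have hp0 : (p : ℤ) ≠ 0 := by exact_mod_cast hp.ne_zero
      have h2 : (n % p).toNat ∈ range p := by
        rw [mem_range]
        have h3 := Int.emod_lt_of_pos n (by exact_mod_cast hp.pos : (0 : ℤ) < p)
        have h4 := Int.emod_nonneg n hp0
        omega
      rw [← he] at h2
      unfold rts at h2
      rw [mem_filter] at h2
      obtain ⟨-, g, hg, hd⟩ := h2
      apply hn g hg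
      have h4 := Int.emod_nonneg n hp0
      have h5 : (((n % p).toNat : ℕ) : ℤ) = n % p := Int.toNat_of_nonneg h4
      rw [h5] at hd
      refine (dvd_val_iff ?_).1 hd
      refine ⟨-(n / p), ?_⟩
      have := Int.emod_add_mul_ediv n p
      linarith
    have := card_lt_card h1
    rwa [card_range] at this

theorem mod_sub (n p : ℕ) : (p : ℤ) ∣ ((n % p : ℕ) : ℤ) - n := by
  refine ⟨-((n / p : ℕ) : ℤ), ?_⟩
  have h1 : ((n % p : ℕ) : ℤ) + (p : ℤ) * ((n / p : ℕ) : ℤ) = n := by exact_mod_cast Nat.mod_add_div n p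
  linarith

theorem mem_SysA {f₀ f₁ : ℤ × ℤ} {G : Finset (ℤ × ℤ)} {A B r n : ℕ} {ε : ℝ} : n ∈ SysA f₀ f₁ G A B r ε ↔
    (A < n ∧ n ≤ B) ∧ (val f₀ n).natAbs.Prime ∧ (val f₁ n).natAbs.primeFactorsList.length ≤ 2 ∧
    (∀ p : ℕ, p.Prime → (p : ℤ) ∣ val f₁ n → (B : ℝ) ^ (1 / 9 : ℝ) ≤ p) ∧
    ∀ f ∈ G, (val f n).natAbs.primeFactorsList.length ≤ r ∧
      ∀ p : ℕ, p.Prime → (p : ℤ) ∣ val f n → (B : ℝ) ^ ε ≤ p := by
  classical
  unfold SysA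
  rw [mem_filter, mem_Ioc]

/-- **Szemerédi's theorem in the sets of Chen's theorem for systems of linear forms** -/
theorem szem_lin (k K : ℕ) (hk : 2 ≤ k) (hK1 : 1 ≤ K) (θ : ℝ) (hθ : 0 < θ) :
    ∃ ε : ℝ, 0 < ε ∧ ∃ r : ℕ, ∀ (m : ℕ) (δ : ℝ), 0 < δ → ∃ C B₀ : ℕ, ∀ B : ℕ, B₀ ≤ B → ∀ A : ℕ,
      (A : ℝ) + θ * B ≤ B →
      ∀ G : Finset (ℤ × ℤ), G.card ≤ k → ∀ f₀ ∈ G, ∀ f₁ ∈ G,
      (∀ f ∈ G, f.1 ≠ 0 ∧ |f.1| ≤ K ∧ |f.2| ≤ (B : ℤ) ^ K) → |f₀.2| ≤ K * B → |f₁.2| ≤ K * B →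
      f₀.1 * f₁.2 - f₁.1 * f₀.2 ≠ 0 → Adm G →
      ∀ S : Finset ℕ, S ⊆ SysA f₀ f₁ G A B r ε → δ * ((SysA f₀ f₁ G A B r ε).card : ℝ) ≤ S.card →
      ∃ a d : ℕ, 1 ≤ d ∧ (d : ℝ) ≤ Real.log B ^ C ∧ ∀ j < m, a + j * d ∈ S := by
  classical
  obtain ⟨ε, c, hε0, hc, r, B₀, hB₀⟩ := chen_abs k K hk hK1 θ hθ
  refine ⟨ε, hε0, r, fun m δ hδ => ?_⟩
  obtain ⟨C, x₀, hx₀⟩ := szem k ε c θ hε0 hc hθ m δ hδ
  refine ⟨C, B₀ + x₀, ?_⟩
  intro B hB A hAB G hG f₀ h₀ f₁ h₁ hco hb₀ hb₁ hD hAdm S hS hδS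
  have hmain := (hB₀ B (by omega) A hAB G hG f₀ h₀ f₁ h₁ hco hb₀ hb₁ hD hAdm).2
  refine hx₀ B (by omega) A hAB (fun p => rts G p) ?_ (SysA f₀ f₁ G A B r ε) ?_ ?_ ?_ S hS hδS
  · intro p hp
    have h1 := rts_card hAdm hp
    refine ⟨h1.1.trans hG, h1.2, fun c hc => ?_⟩
    unfold rts at hc
    exact mem_range.1 (mem_filter.1 hc).1
  · intro n hn
    rw [mem_Ioc]
    exact (mem_SysA.1 hn).1
  · intro n hn p hp hpB hcon
    unfold rts at hcon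
    rw [mem_filter] at hcon
    obtain ⟨-, g, hg, hd⟩ := hcon
    have h1 := (dvd_val_iff (mod_sub n p)).1 hd
    have h2 := ((mem_SysA.1 hn).2.2.2.2 g hg).2 p hp h1
    linarith
  · have h1 : VV (fun p => rts G p) 0 B = SS G B := by
      unfold VV SS
      rw [Pr_eq]
    rw [h1]
    have : (0 : ℝ) ≤ k := Nat.cast_nonneg _
    linarith

open Classical in
/-- the numbers of `SysP` with nonzero values of all the polynomials -/
noncomputable def SysQ (f g : ℤ[X]) (F : Finset ℤ[X]) (A B r : ℕ) (ε : ℝ) : Finset ℕ :=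
  (SysP f g F A B r ε).filter (fun n => ∀ h ∈ F, h.eval (n : ℤ) ≠ 0)

theorem mem_SysQ {f g : ℤ[X]} {F : Finset ℤ[X]} {A B r n : ℕ} {ε : ℝ} : n ∈ SysQ f g F A B r ε ↔
    ((A < n ∧ n ≤ B) ∧ (f.eval (n : ℤ)).natAbs.Prime ∧ (g.eval (n : ℤ)).natAbs.primeFactorsList.length ≤ 2 ∧
    (∀ q ∈ (g.eval (n : ℤ)).natAbs.primeFactors, (B : ℝ) ^ (1 / 9 : ℝ) ≤ q) ∧
    ∀ h ∈ F, (h.eval (n : ℤ)).natAbs.primeFactorsList.length ≤ r ∧
      ∀ q ∈ (h.eval (n : ℤ)).natAbs.primeFactors, (B : ℝ) ^ ε ≤ q) ∧ ∀ h ∈ F, h.eval (n : ℤ) ≠ 0 := by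
  classical
  unfold SysQ
  rw [mem_filter, mem_SysP]

/-- **Szemerédi's theorem in the sets of Chen's theorem for systems of polynomials** -/
theorem szem_poly (D K : ℕ) (hD : 2 ≤ D) (hK1 : 1 ≤ K) (θ : ℝ) (hθ : 0 < θ) :
    ∃ ε : ℝ, 0 < ε ∧ ∃ r : ℕ, ∀ (m : ℕ) (δ : ℝ), 0 < δ → ∃ C B₀ : ℕ, ∀ B : ℕ, B₀ ≤ B → ∀ A : ℕ,
      (A : ℝ) + θ * B ≤ B →
      ∀ F : Finset ℤ[X], ∑ h ∈ F, h.natDegree ≤ D → (∀ h ∈ F, ∀ i, |h.coeff i| ≤ (B : ℤ) ^ K) →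
      ∀ f ∈ F, ∀ g ∈ F, f.natDegree = 1 → g.natDegree = 1 → |f.coeff 1| ≤ K → |g.coeff 1| ≤ K →
      |f.coeff 0| ≤ K * B → |g.coeff 0| ≤ K * B → f ≠ g → f ≠ -g → PAdm F →
      ∀ S : Finset ℕ, S ⊆ SysQ f g F A B r ε → δ * ((SysQ f g F A B r ε).card : ℝ) ≤ S.card →
      ∃ a d : ℕ, 1 ≤ d ∧ (d : ℝ) ≤ Real.log B ^ C ∧ ∀ j < m, a + j * d ∈ S := by
  classical
  obtain ⟨ε, c, hε0, hc, r, B₀, hB₀⟩ := chen_poly D K hD hK1 θ hθ
  refine ⟨ε, hε0, r, fun m δ hδ => ?_⟩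
  obtain ⟨C, x₀, hx₀⟩ := szem D ε c θ hε0 hc hθ m δ hδ
  refine ⟨C, B₀ + x₀, ?_⟩
  intro B hB A hAB F hdeg hco f hf g hg hf1 hg1 hfK hgK hf0 hg0 hfg hfg' hAdm S hS hδS
  have hmain := hB₀ B (by omega) A hAB F hdeg hco f hf g hg hf1 hg1 hfK hgK hf0 hg0 hfg hfg' hAdm
  refine hx₀ B (by omega) A hAB (fun p => rtT (TP F) p) ?_ (SysQ f g F A B r ε) ?_ ?_ ?_ S hS hδS
  · intro p hp
    refine ⟨(rtT_card F hAdm hp).trans hdeg, ?_, fun c hc => (mem_rtT.1 hc).1⟩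
    have h1 : rtT (TP F) p ⊂ range p := by
      rw [ssubset_iff_subset_ne]
      refine ⟨fun c hc => mem_range.2 (mem_rtT.1 hc).1, fun he => ?_⟩
      obtain ⟨n, hn⟩ := hAdm p hp
      have hp0 : (p : ℤ) ≠ 0 := by exact_mod_cast hp.ne_zero
      have h2 : (n % p).toNat ∈ range p := by
        rw [mem_range]
        have h3 := Int.emod_lt_of_pos n (by exact_mod_cast hp.pos : (0 : ℤ) < p)
        have h4 := Int.emod_nonneg n hp0
        omega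
      rw [← he, mem_rtT] at h2
      obtain ⟨-, h, hh, hd⟩ := h2
      apply hn h hh
      have h4 := Int.emod_nonneg n hp0
      have h5 : (((n % p).toNat : ℕ) : ℤ) = n % p := Int.toNat_of_nonneg h4
      rw [h5] at hd
      refine (dvd_eval_iff ?_).1 hd
      refine ⟨-(n / p), ?_⟩
      have := Int.emod_add_mul_ediv n p
      linarith
    have := card_lt_card h1
    rwa [card_range] at this
  · intro n hn
    rw [mem_Ioc]
    exact (mem_SysQ.1 hn).1.1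
  · intro n hn p hp hpB hcon
    rw [mem_rtT] at hcon
    obtain ⟨-, h, hh, hd⟩ := hcon
    have h1 := (dvd_eval_iff (mod_sub n p)).1 hd
    obtain ⟨h2, h3⟩ := mem_SysQ.1 hn
    have h4 := (h2.2.2.2.2 h hh).2 p (by
      rw [Nat.mem_primeFactors]
      exact ⟨hp, Int.natCast_dvd.1 h1, Int.natAbs_ne_zero.2 (h3 h hh)⟩)
    linarith
  · have h1 : VV (fun p => rtT (TP F) p) 0 B = CP.ST (TP F) B := by
      unfold VV CP.ST
      rw [Pr_eq]
    rw [h1]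
    refine hmain.trans ?_
    have h2 : (SysP f g F A B r ε).card ≤ (SysQ f g F A B r ε).card + D := by
      have h3 : SysP f g F A B r ε ⊆ SysQ f g F A B r ε ∪
          F.biUnion (fun h => h.roots.toFinset.image Int.toNat) := by
        intro n hn
        rw [mem_union]
        by_cases hz : ∀ h ∈ F, h.eval (n : ℤ) ≠ 0
        · left
          rw [mem_SysQ, ← mem_SysP]
          exact ⟨hn, hz⟩
        · right
          push Not at hz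
          obtain ⟨h, hh, hz⟩ := hz
          rw [mem_biUnion]
          refine ⟨h, hh, ?_⟩
          rw [mem_image]
          refine ⟨(n : ℤ), ?_, Int.toNat_natCast n⟩
          rw [Multiset.mem_toFinset, mem_roots']
          refine ⟨?_, hz⟩
          rintro rfl
          obtain ⟨n₀, hn₀⟩ := hAdm 2 Nat.prime_two
          apply hn₀ 0 hh
          rw [eval_zero]
          exact dvd_zero _
      refine (card_le_card h3).trans ((card_union_le _ _).trans (Nat.add_le_add_left ?_ _))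
      refine card_biUnion_le.trans (le_trans (sum_le_sum fun h _ => ?_) hdeg)
      exact card_image_le.trans ((Multiset.toFinset_card_le _).trans (card_roots' h))
    exact_mod_cast h2

/-- from finite sets to sets -/
theorem to_set {U : Finset ℕ} {T : Set ℕ} (hTU : T = (U : Set ℕ)) {δ D : ℝ} {m : ℕ}
    (h : ∀ S : Finset ℕ, S ⊆ U → δ * (U.card : ℝ) ≤ S.card → ∃ a d : ℕ, 1 ≤ d ∧ (d : ℝ) ≤ D ∧ ∀ j < m, a + j * d ∈ S) :
    ∀ S : Set ℕ, S ⊆ T → δ * (T.ncard : ℝ) ≤ (S.ncard : ℝ) →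
      ∃ a d : ℕ, 1 ≤ d ∧ (d : ℝ) ≤ D ∧ ∀ j < m, a + j * d ∈ S := by
  classical
  intro S hST hδS
  subst hTU
  have hSf : S.Finite := Set.Finite.subset (finite_toSet U) hST
  obtain ⟨a, d, h1, h2, h3⟩ := h hSf.toFinset (by
      intro n hn
      rw [Set.Finite.mem_toFinset] at hn
      exact mem_coe.1 (hST hn)) (by
      rw [← Set.ncard_eq_toFinset_card S hSf, ← Set.ncard_coe_finset]
      exact hδS)
  exact ⟨a, d, h1, h2, fun j hj => (Set.Finite.mem_toFinset hSf).1 (h3 j hj)⟩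

/-- the condition on the prime factors of a value, for integers and for natural numbers -/
theorem fac_iff {v : ℤ} {w : ℕ} (hv : v.natAbs = w) (hw : w ≠ 0) (t : ℝ) :
    (∀ p : ℕ, p.Prime → (p : ℤ) ∣ v → t ≤ p) ↔ ∀ q ∈ w.primeFactors, t ≤ q := by
  subst hv
  constructor
  · intro h q hq
    rw [Nat.mem_primeFactors] at hq
    exact h q hq.1 (Int.natCast_dvd.2 hq.2.1)
  · intro h p hp hd
    exact h p (Nat.mem_primeFactors.2 ⟨hp, Int.natCast_dvd.1 hd, hw⟩)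

/-- from the usual form of the singular series to the product over the classes -/
theorem of_count (k : ℕ) : ∃ c₀ : ℝ, 0 < c₀ ∧ ∀ x : ℕ, 2 ≤ x → ∀ ρ : ℕ → ℕ, (∀ p : ℕ, p.Prime → ρ p ≤ p) →
    c₀ * x * (∏ p ∈ (Icc 1 x).filter Nat.Prime, (1 - (ρ p : ℝ) / p)) ≤
      (∏ p ∈ (Icc 1 x).filter Nat.Prime, (1 - (ρ p : ℝ) / p) / (1 - 1 / (p : ℝ)) ^ k) * (x / Real.log x ^ k) := by
  obtain ⟨c, C, hc, hC, hV⟩ := Pool.Agent.Y843.HG.V1_bounds
  refine ⟨1 / C ^ k, by positivity, ?_⟩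
  intro x hx ρ hρ
  have hlx : 0 < Real.log (x : ℝ) := Real.log_pos (by exact_mod_cast (by omega : 1 < x))
  have h1 := (hV x hx).2
  have h0 := Pool.Agent.Y843.HG.V1_pos x
  unfold Pool.Agent.Y843.HG.V1 at h1 h0
  rw [Pr_eq] at h1 h0
  set Q := ∏ p ∈ (Icc 1 x).filter Nat.Prime, (1 - 1 / (p : ℝ)) with hQ
  set R := ∏ p ∈ (Icc 1 x).filter Nat.Prime, (1 - (ρ p : ℝ) / p) with hR
  have hR0 : 0 ≤ R := by
    apply prod_nonneg
    intro p hp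
    have hp' := (mem_filter.1 hp).2
    have hp0 : (0 : ℝ) < p := by exact_mod_cast hp'.pos
    rw [sub_nonneg, div_le_one hp0]
    exact_mod_cast hρ p hp'
  rw [prod_div_distrib, prod_pow, ← hQ, ← hR]
  have h2 : Q ^ k * Real.log x ^ k ≤ C ^ k := by
    rw [← mul_pow]
    apply pow_le_pow_left₀ (by positivity)
    rwa [le_div_iff₀ hlx] at h1
  have e : R / Q ^ k * (x / Real.log x ^ k) = x * R / (Q ^ k * Real.log x ^ k) := by
    field_simp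
  rw [e, le_div_iff₀ (by positivity)]
  calc 1 / C ^ k * x * R * (Q ^ k * Real.log x ^ k) ≤ 1 / C ^ k * x * R * C ^ k :=
        mul_le_mul_of_nonneg_left h2 (by positivity)
    _ = x * R := by field_simp

theorem large {ε : ℝ} (hε : 0 < ε) : ∃ x₁ : ℕ, ∀ x : ℕ, x₁ ≤ x → (3 : ℝ) ≤ (x : ℝ) ^ ε := by
  have ev : ∀ᶠ B : ℕ in atTop, 3 ≤ (B : ℝ) ^ ε :=
    (Tendsto.comp (tendsto_rpow_atTop hε) tendsto_natCast_atTop_atTop).eventually_ge_atTop 3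
  exact eventually_atTop.1 ev

/-- the same for nonempty sets, without the condition on the classes -/
theorem szem_ne (D : ℕ) (ε c θ : ℝ) (hε : 0 < ε) (hc : 0 < c) (hθ : 0 < θ) (m : ℕ) (δ : ℝ) (hδ : 0 < δ) :
    ∃ C x₀ : ℕ, ∀ x : ℕ, x₀ ≤ x → ∀ y : ℕ, (y : ℝ) + θ * x ≤ x → ∀ Z : ℕ → Finset ℕ,
      (∀ p : ℕ, p.Prime → (Z p).card ≤ D ∧ ∀ c ∈ Z p, c < p) →
      ∀ S₀ : Finset ℕ, S₀.Nonempty → S₀ ⊆ Ioc y x →
      (∀ n ∈ S₀, ∀ p : ℕ, p.Prime → (p : ℝ) < (x : ℝ) ^ ε → n % p ∉ Z p) →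
      c * x * VV Z 0 x ≤ S₀.card + D → ∀ S : Finset ℕ, S ⊆ S₀ → δ * S₀.card ≤ S.card →
      ∃ a d : ℕ, 1 ≤ d ∧ (d : ℝ) ≤ Real.log x ^ C ∧ ∀ j < m, a + j * d ∈ S := by
  obtain ⟨C, x₀, h⟩ := szem D ε c θ hε hc hθ m δ hδ
  have ev : ∀ᶠ B : ℕ in atTop, (D + 1 : ℝ) ≤ (B : ℝ) ^ ε :=
    (Tendsto.comp (tendsto_rpow_atTop hε) tendsto_natCast_atTop_atTop).eventually_ge_atTop _
  obtain ⟨x₁, hx₁⟩ := eventually_atTop.1 ev
  refine ⟨C, x₀ + x₁, ?_⟩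
  intro x hx y hy Z hZ S₀ hne hS₀ hav hcount S hS hSδ
  have h1 := hx₁ x (by omega)
  refine h x (by omega) y hy Z (fun p hp => ⟨(hZ p hp).1, ?_, (hZ p hp).2⟩) S₀ hS₀ hav hcount S hS hSδ
  rcases lt_or_ge (p : ℝ) ((x : ℝ) ^ ε) with h2 | h2
  · obtain ⟨n, hn⟩ := hne
    have h3 : Z p ⊂ range p := by
      rw [Finset.ssubset_iff_of_subset (fun c hc => mem_range.2 ((hZ p hp).2 c hc))]
      exact ⟨n % p, mem_range.2 (Nat.mod_lt _ hp.pos), hav n hn p hp h2⟩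
    have := card_lt_card h3
    rwa [card_range] at this
  · have h3 : (D : ℝ) < p := by linarith
    exact lt_of_le_of_lt (hZ p hp).1 (by exact_mod_cast h3)

end Pool.Agent.H76.NA
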